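import Pool.Agent.R754.PG.Defs

/-!
# The unordered configuration space of the plane is connected
-/

open Set Topology

noncomputable section

namespace R754.PG

theorem conf_joined {n : ℕ} (x y : Conf n) : Joined x y := by
  -- the complex line through `x` and `y`
  set l : ℂ → Fin n → ℂ := fun c i => (1 - c) * x.1 i + c * y.1 i with hl
  set B : Set ℂ := {c | ¬ Function.Injective (l c)} with hB
  have hBc : B.Countable := by
    have hsub : B ⊆ ⋃ i : Fin n, ⋃ j ∈ {j | j ≠ i}, {c | l c i = l c j} := by
      intro c hc
      simp only [hB, Function.Injective, not_forall] at hc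
      obtain ⟨i, j, hij, hne⟩ := hc
      exact mem_iUnion.2 ⟨i, mem_biUnion (show j ∈ {j | j ≠ i} from Ne.symm hne) hij⟩
    refine Countable.mono hsub (countable_iUnion fun i => (Set.toFinite _).countable.biUnion
      fun j hj => ?_)
    have hxij : x.1 i - x.1 j ≠ 0 := sub_ne_zero.2 fun h => hj (x.2 h).symm
    have : {c | l c i = l c j}.Subsingleton := by
      intro c hc d hd
      simp only [hl, mem_ofPred_eq] at hc hd
      set u := x.1 i - x.1 j with hu
      set v := y.1 i - y.1 j with hv
      have hc' : u + c * (v - u) = 0 := by rw [hu, hv]; linear_combination hc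
      have hd' : u + d * (v - u) = 0 := by rw [hu, hv]; linear_combination hd
      have hvu : v - u ≠ 0 := by
        intro h
        rw [h, mul_zero, add_zero] at hc'
        exact hxij hc'
      have : (c - d) * (v - u) = 0 := by linear_combination hc' - hd'
      rcases mul_eq_zero.1 this with h | h
      · exact sub_eq_zero.1 h
      · exact absurd h hvu
    exact this.countable
  have hrank : 1 < Module.rank ℝ ℂ := by
    rw [Complex.rank_real_complex]; exact Cardinal.one_lt_two
  have hpc := hBc.isPathConnected_compl_of_one_lt_rank hrank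
  have h0 : (0 : ℂ) ∈ Bᶜ := by
    have : l 0 = x.1 := by funext i; simp [hl]
    simp only [hB, mem_compl_iff, mem_ofPred_eq, not_not, this]
    exact x.2
  have h1 : (1 : ℂ) ∈ Bᶜ := by
    have : l 1 = y.1 := by funext i; simp [hl]
    simp only [hB, mem_compl_iff, mem_ofPred_eq, not_not, this]
    exact y.2
  obtain ⟨γ, hγ⟩ := hpc.joinedIn 0 h0 1 h1
  have hinj : ∀ t, Function.Injective (l (γ t)) := fun t => by
    have := hγ t
    simpa only [hB, mem_compl_iff, mem_ofPred_eq, not_not] using this
  refine ⟨⟨⟨fun t => ⟨l (γ t), hinj t⟩, ?_⟩, ?_, ?_⟩⟩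
  · refine Continuous.subtype_mk ?_ _
    refine continuous_pi fun i => ?_
    simp only [hl]
    have := γ.continuous
    fun_prop
  · apply Subtype.ext
    funext i
    simp [hl]
  · apply Subtype.ext
    funext i
    simp [hl]

instance (n : ℕ) : PreconnectedSpace (Conf n) := by
  refine ⟨isPreconnected_of_forall_pair ?_⟩
  intro x _ y _
  obtain ⟨γ⟩ := conf_joined x y
  exact ⟨range γ, subset_univ _, ⟨0, γ.source⟩, ⟨1, γ.target⟩, isPreconnected_range γ.continuous⟩

instance (n : ℕ) : PreconnectedSpace (UConf n) := by
  have hc : Continuous (fun x : Conf n => (Quotient.mk (confSetoid n) x : UConf n)) :=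
    continuous_quot_mk
  have h := (isPreconnected_univ (α := Conf n)).image _ hc.continuousOn
  have hs : (univ : Set (UConf n)) =
      (fun x : Conf n => (Quotient.mk (confSetoid n) x : UConf n)) '' univ :=
    (Set.eq_univ_of_forall fun x => by
      obtain ⟨y, hy⟩ := Quotient.exists_rep x
      exact ⟨y, mem_univ _, hy⟩).symm
  refine ⟨?_⟩
  rw [hs]
  exact h

end R754.PG
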