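import Pool.Agent.R754.PG.Defs

/-!
# Connectedness of the image of a degenerate embedding depends only on the graph
-/

open Set Topology

noncomputable section

namespace R754.PG

variable {G : MGraph}

theorem pt_zero (e : Fin G.q) : pt G e 0 = vtx G (G.src e) := Quot.sound (Glue.src e)

theorem pt_one (e : Fin G.q) : pt G e 1 = vtx G (G.tgt e) := Quot.sound (Glue.tgt e)

theorem continuous_pt (e : Fin G.q) : Continuous (pt G e) := by
  have h : Continuous (fun t : unitInterval => (Sum.inr (e, t) : Cells G)) :=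
    continuous_inr.comp (continuous_const.prodMk continuous_id)
  exact (continuous_quot_mk (r := Glue G)).comp h

/-- a vertex in the same component of the graph as a cell -/
def anchor (G : MGraph) : Cells G → Fin G.p
  | Sum.inl v => v
  | Sum.inr (e, _) => G.src e

theorem rel_mono {S T : Set (Fin G.q)} (h : S ⊆ T) {v w : Fin G.p} (hr : Rel G S v w) :
    Rel G T v w := by
  induction hr with
  | rel x y hxy => exact Relation.EqvGen.rel _ _ (by obtain ⟨e, he, h1⟩ := hxy; exact ⟨e, h he, h1⟩)
  | refl x => exact Relation.EqvGen.refl _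
  | symm x y _ ih => exact Relation.EqvGen.symm _ _ ih
  | trans x y z _ _ ih1 ih2 => exact Relation.EqvGen.trans _ _ _ ih1 ih2

theorem rel_edge (e : Fin G.q) : Rel G univ (G.src e) (G.tgt e) :=
  Relation.EqvGen.rel _ _ ⟨e, mem_univ _, rfl, rfl⟩

/-- normal form of a cell with respect to `φ` -/
theorem cell_cases {φ : CW G → ℂ} (c : Cells G) :
    (∃ v, φ (Quot.mk _ c) = φ (vtx G v) ∧ Rel G univ (anchor G c) v) ∨
    (∃ e t, c = Sum.inr (e, t) ∧ ¬ IsConst G φ e ∧ t ≠ 0 ∧ t ≠ 1) := by
  rcases c with v | ⟨e, t⟩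
  · exact Or.inl ⟨v, rfl, Relation.EqvGen.refl _⟩
  · by_cases hc : IsConst G φ e
    · refine Or.inl ⟨G.src e, ?_, Relation.EqvGen.refl _⟩
      rw [← pt_zero]; exact hc t
    · by_cases h0 : t = 0
      · refine Or.inl ⟨G.src e, ?_, Relation.EqvGen.refl _⟩
        rw [← pt_zero, h0]; rfl
      · by_cases h1 : t = 1
        · refine Or.inl ⟨G.tgt e, ?_, rel_edge e⟩
          rw [← pt_one, h1]; rfl
        · exact Or.inr ⟨e, t, rfl, hc, h0, h1⟩

theorem anchor_rel {φ : CW G → ℂ} (h : IsDegEmb G φ) {c c' : Cells G}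
    (hcc : φ (Quot.mk _ c) = φ (Quot.mk _ c')) : Rel G univ (anchor G c) (anchor G c') := by
  rcases cell_cases (φ := φ) c with ⟨v, hv, rv⟩ | ⟨e, t, rfl, hc, h0, h1⟩
  · rcases cell_cases (φ := φ) c' with ⟨w, hw, rw'⟩ | ⟨e, t, rfl, hc, h0, h1⟩
    · have : Rel G {e | IsConst G φ e} v w := (h.vert v w).1 (by rw [← hv, ← hw, hcc])
      exact (rv.trans _ _ _ (rel_mono (subset_univ _) this)).trans _ _ _ (rw'.symm _ _)
    · exact absurd (by rw [← hv, hcc]; rfl) (h.vert_edge e hc t h0 h1 v)
  · rcases cell_cases (φ := φ) c' with ⟨w, hw, rw'⟩ | ⟨f, s, rfl, hc', h0', h1'⟩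
    · exact absurd (by rw [← hw, ← hcc]; rfl) (h.vert_edge e hc t h0 h1 w)
    · by_cases hef : e = f
      · subst hef; exact Relation.EqvGen.refl _
      · exact absurd hcc (h.edge_edge e f hef hc hc' t s h0 h1 h0' h1')

theorem joined_anchor {φ : CW G → ℂ} (hφ : Continuous φ) (c : Cells G) :
    JoinedIn (range φ) (φ (vtx G (anchor G c))) (φ (Quot.mk _ c)) := by
  rcases c with v | ⟨e, t⟩
  · exact JoinedIn.refl ⟨_, rfl⟩
  · have hcont : Continuous fun s : unitInterval => φ (pt G e (s * t)) :=
      hφ.comp ((continuous_pt e).comp (continuous_id.mul continuous_const))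
    refine ⟨⟨⟨fun s => φ (pt G e (s * t)), hcont⟩, ?_, ?_⟩, fun s => ⟨_, rfl⟩⟩
    · simp [pt_zero, anchor]
    · simp [pt]

theorem joined_rel {φ : CW G → ℂ} (hφ : Continuous φ) {v w : Fin G.p} (h : Rel G univ v w) :
    JoinedIn (range φ) (φ (vtx G v)) (φ (vtx G w)) := by
  induction h with
  | rel x y hxy =>
    obtain ⟨e, -, rfl, rfl⟩ := hxy
    rw [← pt_one]
    exact joined_anchor hφ (Sum.inr (e, 1))
  | refl x => exact JoinedIn.refl ⟨_, rfl⟩
  | symm x y _ ih => exact ih.symm
  | trans x y z _ _ ih1 ih2 => exact ih1.trans ih2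

theorem preconnected_of_rel {φ : CW G → ℂ} (hφ : Continuous φ)
    (h : ∀ v w : Fin G.p, Rel G univ v w) : IsPreconnected (range φ) := by
  by_cases hne : (range φ).Nonempty
  · have : IsPathConnected (range φ) := by
      rw [isPathConnected_iff]
      refine ⟨hne, ?_⟩
      rintro _ ⟨x, rfl⟩ _ ⟨y, rfl⟩
      induction x using Quot.inductionOn with
      | h c =>
        induction y using Quot.inductionOn with
        | h c' =>
          exact (joined_anchor hφ c).symm.trans
            ((joined_rel hφ (h _ _)).trans (joined_anchor hφ c'))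
    exact this.isConnected.isPreconnected
  · rw [not_nonempty_iff_eq_empty] at hne
    rw [hne]; exact isPreconnected_empty

/-- the cells anchored at vertices of `A` -/
def piece (φ : CW G → ℂ) (A : Set (Fin G.p)) : Set ℂ :=
  (⋃ v ∈ A, {φ (vtx G v)}) ∪ ⋃ e ∈ {e | G.src e ∈ A}, range fun t => φ (pt G e t)

theorem isClosed_piece {φ : CW G → ℂ} (hφ : Continuous φ) (A : Set (Fin G.p)) :
    IsClosed (piece φ A) := by
  refine IsClosed.union ?_ ?_
  · exact (Set.toFinite A).isClosed_biUnion fun v _ => isClosed_singleton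
  · refine (Set.toFinite _).isClosed_biUnion fun e _ => ?_
    exact (isCompact_range (hφ.comp (continuous_pt e))).isClosed

theorem mem_piece {φ : CW G → ℂ} {A : Set (Fin G.p)} {z : ℂ} :
    z ∈ piece φ A ↔ ∃ c : Cells G, anchor G c ∈ A ∧ φ (Quot.mk _ c) = z := by
  constructor
  · rintro (hz | hz)
    · simp only [mem_iUnion, mem_singleton_iff, exists_prop] at hz
      obtain ⟨v, hv, rfl⟩ := hz
      exact ⟨Sum.inl v, hv, rfl⟩
    · simp only [mem_iUnion, exists_prop] at hz
      obtain ⟨e, he, t, rfl⟩ := hz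
      exact ⟨Sum.inr (e, t), he, rfl⟩
  · rintro ⟨c, hc, rfl⟩
    rcases c with v | ⟨e, t⟩
    · left
      simp only [mem_iUnion, mem_singleton_iff, exists_prop]
      exact ⟨v, hc, rfl⟩
    · right
      simp only [mem_iUnion, exists_prop]
      exact ⟨e, hc, t, rfl⟩

theorem rel_of_preconnected {φ : CW G → ℂ} (hφ : Continuous φ) (h : IsDegEmb G φ)
    (hp : IsPreconnected (range φ)) (v w : Fin G.p) : Rel G univ v w := by
  by_contra hvw
  set A : Set (Fin G.p) := {u | Rel G univ v u} with hA
  have key := (isPreconnected_closed_iff.1 hp) (piece φ A) (piece φ Aᶜ) (isClosed_piece hφ A)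
    (isClosed_piece hφ Aᶜ) ?_ ?_ ?_
  · obtain ⟨z, -, hz1, hz2⟩ := key
    obtain ⟨c, hc, rfl⟩ := mem_piece.1 hz1
    obtain ⟨c', hc', h2⟩ := mem_piece.1 hz2
    exact hc' ((show Rel G univ v (anchor G c) from hc).trans _ _ _ (anchor_rel h h2.symm))
  · rintro _ ⟨x, rfl⟩
    induction x using Quot.inductionOn with
    | h c =>
      by_cases hc : anchor G c ∈ A
      · exact Or.inl (mem_piece.2 ⟨c, hc, rfl⟩)
      · exact Or.inr (mem_piece.2 ⟨c, hc, rfl⟩)
  · exact ⟨φ (vtx G v), ⟨_, rfl⟩, mem_piece.2 ⟨Sum.inl v, Relation.EqvGen.refl _, rfl⟩⟩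
  · exact ⟨φ (vtx G w), ⟨_, rfl⟩, mem_piece.2 ⟨Sum.inl w, hvw, rfl⟩⟩

/-- the image is connected if and only if the graph is -/
theorem preconnected_iff (x : Tot) :
    IsPreconnected (img x) ↔ ∀ v w : Fin x.1.p, Rel x.1 univ v w :=
  ⟨fun h => rel_of_preconnected x.2.1.continuous x.2.2 h,
    fun h => preconnected_of_rel x.2.1.continuous h⟩

open Classical in
/-- is the image connected? -/
def chi (x : NN) : Bool := decide (IsPreconnected x.img)

open Classical in
theorem continuous_chi : Continuous chi := by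
  have h1 : Continuous (fun x : Tot => decide (IsPreconnected (img x))) := by
    rw [continuous_sigma_iff]
    intro G
    have : (fun φ : DegEmb G => decide (IsPreconnected (img ⟨G, φ⟩))) =
        fun _ => decide (∀ v w : Fin G.p, Rel G univ v w) := by
      funext φ
      simp only [decide_eq_decide]
      exact preconnected_iff ⟨G, φ⟩
    rw [this]
    exact continuous_const
  have hq : @IsQuotientMap Tot (Quotient imgSetoid) _ _ (Quotient.mk imgSetoid) :=
    isQuotientMap_quotient_mk'
  exact (hq.continuous_iff (g := (chi : Quotient imgSetoid → Bool))).2 h1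

/-- a continuous function to `Bool` on a space which is homotopy equivalent to a connected space is
constant -/
theorem const_of_homotopyEquiv {X : Type*} {Y : Type*} [TopologicalSpace X] [TopologicalSpace Y]
    [PreconnectedSpace Y] (e : ContinuousMap.HomotopyEquiv X Y) {f : X → Bool} (hf : Continuous f)
    (x y : X) : f x = f y := by
  have h1 : ∀ x, f (e.invFun (e.toFun x)) = f x := by
    intro x
    obtain ⟨H⟩ := e.left_inv
    have hc : Continuous fun t : unitInterval => f (H (t, x)) :=
      hf.comp (H.continuous.comp (continuous_id.prodMk continuous_const))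
    have := PreconnectedSpace.constant (inferInstance : PreconnectedSpace unitInterval) hc
      (x := 0) (y := 1)
    simpa using this
  rw [← h1 x, ← h1 y]
  exact PreconnectedSpace.constant (inferInstance : PreconnectedSpace Y)
    (hf.comp e.invFun.continuous)

end R754.PG
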