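import Pool.Agent.R754.PG.Ex

/-!
# The two graphs have `m + 1` bounded faces; one is connected, the other one is not
-/

open Set Topology

noncomputable section

namespace R754.PG

variable (m : ℕ)

theorem norm_eq_of_im {z : ℂ} (h : z.im = 0) : ‖z‖ = |z.re| := by
  have : z = (z.re : ℂ) := Complex.ext rfl (by simpa using h)
  rw [this, Complex.norm_real, Real.norm_eq_abs]
  simp

/-- the bounded faces -/
def Ui (S : Set ℝ) (i : Fin (m + 1)) : Set ℂ :=
  if (i : ℕ) = 0 then {z | ‖z‖ ∈ S} else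
    {z | ‖z‖ ∈ Ioo ((i : ℕ) : ℝ) ((i : ℕ) + 1)} ∩ Complex.slitPlane

theorem Ui_norm {S : Set ℝ} (hS : S ⊆ Iio 1) {i : Fin (m + 1)} {z : ℂ} (hz : z ∈ Ui m S i) :
    ‖z‖ < (i : ℕ) + 1 ∧ (((i : ℕ) : ℝ) ≤ ‖z‖) := by
  unfold Ui at hz
  split_ifs at hz with h
  · rw [h]
    have h1 : ‖z‖ < 1 := hS hz
    refine ⟨by simpa using h1, by simp⟩
  · exact ⟨hz.1.2, hz.1.1.le⟩

theorem faces_count {S : Set ℝ} {K : Set ℂ} (hS : S ⊆ Iio 1) (oS : IsOpen {z : ℂ | ‖z‖ ∈ S})
    (pS : IsPreconnected {z : ℂ | ‖z‖ ∈ S}) (nS : {z : ℂ | ‖z‖ ∈ S}.Nonempty)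
    (hK : ∀ z, z ∈ K ↔ z ∈ Kset m ∨ (‖z‖ < 1 ∧ ‖z‖ ∉ S)) :
    (boundedFaces K).encard = (m + 1 : ℕ) := by
  have hnorm : Continuous (fun z : ℂ => ‖z‖) := continuous_norm
  refine encard_boundedFaces (U := Ui m S) (W := {z | ‖z‖ ∈ Ioi ((m : ℝ) + 1)})
    ?_ ?_ ?_ ?_ ?_ ?_ ?_ ?_ ?_ ?_
  · ext z
    simp only [mem_compl_iff, hK, not_or]
    constructor
    · rintro ⟨h1, h2⟩
      simp only [Kset, mem_ofPred_eq, not_or, not_exists] at h1
      obtain ⟨hc, hs⟩ := h1
      by_cases hr1 : ‖z‖ < 1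
      · have : ‖z‖ ∈ S := by
          by_contra hn
          exact h2 ⟨hr1, hn⟩
        exact Or.inl (mem_iUnion.2 ⟨0, by simpa [Ui] using this⟩)
      · push Not at hr1
        by_cases hrm : (m : ℝ) + 1 < ‖z‖
        · exact Or.inr hrm
        · push Not at hrm
          left
          set n := ⌊‖z‖⌋₊ with hn
          have hn1 : 1 ≤ n := Nat.le_floor (by exact_mod_cast hr1)
          have hle : (n : ℝ) ≤ ‖z‖ := Nat.floor_le (by linarith)
          have hlt : ‖z‖ < n + 1 := Nat.lt_floor_add_one _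
          have hnm1 : n ≤ m + 1 := by
            have : (n : ℝ) ≤ (m + 1 : ℕ) := by push_cast; linarith
            exact_mod_cast this
          have hne : ‖z‖ ≠ n := fun h => hc n ⟨hn1, hnm1, h⟩
          have hlt' : (n : ℝ) < ‖z‖ := lt_of_le_of_ne hle (Ne.symm hne)
          have hnm : n < m + 1 := by
            have : (n : ℝ) < (m + 1 : ℕ) := by push_cast; linarith
            exact_mod_cast this
          refine mem_iUnion.2 ⟨⟨n, hnm⟩, ?_⟩
          unfold Ui
          rw [if_neg (by simp; omega)]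
          refine ⟨⟨hlt', hlt⟩, ?_⟩
          rw [Complex.mem_slitPlane_iff]
          by_contra hsl
          push Not at hsl
          obtain ⟨hre, him⟩ := hsl
          have h3 := norm_eq_of_im him
          rw [abs_of_nonpos hre] at h3
          exact hs ⟨him, by linarith, by linarith⟩
    · rintro (hz | hz)
      · obtain ⟨i, hi⟩ := mem_iUnion.1 hz
        obtain ⟨h1, h2⟩ := Ui_norm m hS hi
        have him1 : ((i : ℕ) : ℝ) ≤ m := by
          have := i.2
          exact_mod_cast (by omega : (i : ℕ) ≤ m)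
        unfold Ui at hi
        split_ifs at hi with h0
        · have hlt : ‖z‖ < 1 := hS hi
          refine ⟨?_, fun h => h.2 hi⟩
          rintro (⟨k, hk1, -, hk⟩ | ⟨hz1, -, hz3⟩)
          · have : (1 : ℝ) ≤ k := by exact_mod_cast hk1
            linarith
          · have := norm_eq_of_im hz1
            rw [abs_of_nonpos (by linarith)] at this
            linarith
        · obtain ⟨⟨h3, h4⟩, h5⟩ := hi
          have hi1 : (1 : ℝ) ≤ (i : ℕ) := by
            exact_mod_cast (by omega : 1 ≤ (i : ℕ))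
          refine ⟨?_, fun h => by linarith [h.1]⟩
          rintro (⟨k, -, -, hk⟩ | ⟨hz1, -, hz3⟩)
          · rw [hk] at h3 h4
            have h3' : (i : ℕ) < k := by exact_mod_cast h3
            have h4' : k < (i : ℕ) + 1 := by exact_mod_cast h4
            omega
          · rcases Complex.mem_slitPlane_iff.1 h5 with h6 | h6
            · linarith
            · exact h6 hz1
      · have hz' : (m : ℝ) + 1 < ‖z‖ := hz
        have hm : (0 : ℝ) ≤ m := Nat.cast_nonneg _
        refine ⟨?_, fun h => by linarith [h.1]⟩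
        rintro (⟨k, -, hk2, hk⟩ | ⟨hz1, hz2, hz3⟩)
        · have : (k : ℝ) ≤ m + 1 := by exact_mod_cast hk2
          linarith
        · have := norm_eq_of_im hz1
          rw [abs_of_nonpos (by linarith)] at this
          linarith
  · intro i
    unfold Ui
    split_ifs
    · exact oS
    · exact (isOpen_Ioo.preimage hnorm).inter Complex.isOpen_slitPlane
  · exact isOpen_Ioi.preimage hnorm
  · intro i
    unfold Ui
    split_ifs with h
    · exact pS
    · refine isPreconnected_slit isPreconnected_Ioo fun r hr => ?_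
      have : (0 : ℝ) ≤ (i : ℕ) := Nat.cast_nonneg _
      exact lt_of_le_of_lt this hr.1
  · refine isPreconnected_norm isPreconnected_Ioi fun r hr => ?_
    have hm : (0 : ℝ) ≤ m := Nat.cast_nonneg _
    have : (m : ℝ) + 1 < r := hr
    linarith
  · intro i
    unfold Ui
    split_ifs with h
    · exact nS
    · have h0 : (0 : ℝ) ≤ (i : ℕ) := Nat.cast_nonneg _
      refine ⟨((((i : ℕ) : ℝ) + 1 / 2 : ℝ) : ℂ), ?_, ?_⟩
      · have : ‖((((i : ℕ) : ℝ) + 1 / 2 : ℝ) : ℂ)‖ = (i : ℕ) + 1 / 2 := by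
          rw [Complex.norm_real, Real.norm_of_nonneg (by linarith)]
        show ‖((((i : ℕ) : ℝ) + 1 / 2 : ℝ) : ℂ)‖ ∈ Ioo ((i : ℕ) : ℝ) ((i : ℕ) + 1)
        rw [this]
        constructor <;> linarith
      · rw [Complex.mem_slitPlane_iff]
        left
        rw [Complex.ofReal_re]
        linarith
  · intro i
    refine (Metric.isBounded_closedBall (x := (0 : ℂ)) (r := (i : ℕ) + 1)).subset fun z hz => ?_
    rw [mem_closedBall_zero_iff]
    exact (Ui_norm m hS hz).1.le
  · intro hb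
    obtain ⟨R, hR⟩ := (Metric.isBounded_iff_subset_closedBall (0 : ℂ)).1 hb
    have hm : (0 : ℝ) ≤ m := Nat.cast_nonneg _
    have h1 : ((|R| + m + 2 : ℝ) : ℂ) ∈ {z : ℂ | ‖z‖ ∈ Ioi ((m : ℝ) + 1)} := by
      show (m : ℝ) + 1 < ‖((|R| + m + 2 : ℝ) : ℂ)‖
      rw [Complex.norm_real, Real.norm_of_nonneg (by positivity)]
      linarith [abs_nonneg R]
    have h2 := hR h1
    rw [mem_closedBall_zero_iff, Complex.norm_real, Real.norm_of_nonneg (by positivity)] at h2
    linarith [le_abs_self R]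
  · intro i j hij
    rw [Set.disjoint_left]
    intro z hz hz'
    obtain ⟨a1, a2⟩ := Ui_norm m hS hz
    obtain ⟨b1, b2⟩ := Ui_norm m hS hz'
    have h1 : ((i : ℕ) : ℝ) < (j : ℕ) + 1 := by linarith
    have h2 : ((j : ℕ) : ℝ) < (i : ℕ) + 1 := by linarith
    have h1' : (i : ℕ) < (j : ℕ) + 1 := by exact_mod_cast h1
    have h2' : (j : ℕ) < (i : ℕ) + 1 := by exact_mod_cast h2
    exact hij (Fin.ext (by omega))
  · intro i
    rw [Set.disjoint_left]
    intro z hz hz'
    obtain ⟨a1, a2⟩ := Ui_norm m hS hz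
    have him1 : ((i : ℕ) : ℝ) ≤ m := by
      exact_mod_cast (by have := i.2; omega : (i : ℕ) ≤ m)
    have : (m : ℝ) + 1 < ‖z‖ := hz'
    linarith

theorem Kset_preconnected : IsPreconnected (Kset m) := by
  have hseg : IsPreconnected {z : ℂ | z.im = 0 ∧ -((m : ℝ) + 1) ≤ z.re ∧ z.re ≤ -1} := by
    have h := (isPreconnected_Icc (a := -((m : ℝ) + 1)) (b := -1)).image
      (fun x : ℝ => (x : ℂ)) Complex.continuous_ofReal.continuousOn
    convert h using 1
    ext z
    constructor
    · rintro ⟨h1, h2, h3⟩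
      exact ⟨z.re, ⟨h2, h3⟩, Complex.ext rfl (by simpa using h1.symm)⟩
    · rintro ⟨x, ⟨h2, h3⟩, rfl⟩
      exact ⟨Complex.ofReal_im x, by simpa using h2, by simpa using h3⟩
  have hm : (0 : ℝ) ≤ m := Nat.cast_nonneg _
  refine isPreconnected_of_forall (-1 : ℂ) ?_
  rintro z (⟨k, hk1, hk2, hk⟩ | hz)
  · refine ⟨{z : ℂ | z.im = 0 ∧ -((m : ℝ) + 1) ≤ z.re ∧ z.re ≤ -1} ∪ Metric.sphere 0 k,
      ?_, Or.inl ?_, Or.inr ?_, ?_⟩
    · rintro w (hw | hw)
      · exact Or.inr hw
      · exact Or.inl ⟨k, hk1, hk2, by simpa using hw⟩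
    · refine ⟨by simp, by simp, by simp⟩
    · simpa using hk
    · have hk1' : (1 : ℝ) ≤ k := by exact_mod_cast hk1
      have hk2' : (k : ℝ) ≤ m + 1 := by exact_mod_cast hk2
      refine IsPreconnected.union (-(k : ℂ)) ?_ ?_ hseg ?_
      · refine ⟨by simp, by simp; linarith, by simp; linarith⟩
      · simp
      · exact isPreconnected_sphere (by rw [Complex.rank_real_complex]; exact Cardinal.one_lt_two)
          0 (k : ℝ)
  · exact ⟨_, fun w hw => Or.inr hw, ⟨by simp, by simp, by simp⟩, hz, hseg⟩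

theorem Kset_norm {z : ℂ} (hz : z ∈ Kset m) : 1 ≤ ‖z‖ := by
  rcases hz with ⟨k, hk1, -, hk⟩ | ⟨h1, -, h3⟩
  · rw [hk]; exact_mod_cast hk1
  · rw [norm_eq_of_im h1, abs_of_nonpos (by linarith)]
    linarith

theorem Kset_zero_not : ¬ IsPreconnected (Kset m ∪ {0}) := by
  intro h
  have hnorm : Continuous (fun z : ℂ => ‖z‖) := continuous_norm
  have hm : (0 : ℝ) ≤ m := Nat.cast_nonneg _
  have key := h {z | ‖z‖ < 1 / 2} {z | 1 / 2 < ‖z‖}
    (isOpen_Iio.preimage hnorm) (isOpen_Ioi.preimage hnorm) ?_ ?_ ?_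
  · obtain ⟨z, -, h1, h2⟩ := key
    have h1' : ‖z‖ < 1 / 2 := h1
    have h2' : 1 / 2 < ‖z‖ := h2
    linarith
  · rintro w (hw | hw)
    · right
      have := Kset_norm m hw
      show 1 / 2 < ‖w‖
      linarith
    · left
      rw [mem_singleton_iff] at hw
      rw [hw]
      show ‖(0 : ℂ)‖ < 1 / 2
      norm_num
  · exact ⟨0, Or.inr rfl, by show ‖(0 : ℂ)‖ < 1 / 2; norm_num⟩
  · refine ⟨-1, Or.inl (Or.inr ⟨by simp, by simp <;> linarith, by simp⟩), ?_⟩
    show 1 / 2 < ‖(-1 : ℂ)‖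
    norm_num

/-- a class with connected image and `m + 1` bounded faces -/
theorem exists_conn : ∃ x : Nn (m + 1), IsPreconnected x.1.img := by
  obtain ⟨x, hx⟩ := exists_graph m Empty
  rw [union_eq] at hx
  have hx' : img x = Kset m := by rw [hx, range_eq_empty, union_empty]
  refine ⟨⟨Quotient.mk imgSetoid x, ?_⟩, ?_⟩
  · show (boundedFaces (img x)).encard = _
    rw [hx']
    refine faces_count m (S := Iio 1) le_rfl ?_ ?_ ⟨0, by simp⟩ ?_
    · exact isOpen_Iio.preimage continuous_norm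
    · convert isPreconnected_norm (isPreconnected_Ico (a := (0 : ℝ)) (b := 1)) (fun r hr => hr.1)
        using 1
      ext z
      simp
    · intro z
      simp
  · show IsPreconnected (img x)
    rw [hx']
    exact Kset_preconnected m

/-- a class with disconnected image and `m + 1` bounded faces -/
theorem exists_disconn : ∃ x : Nn (m + 1), ¬ IsPreconnected x.1.img := by
  obtain ⟨x, hx⟩ := exists_graph m Unit
  rw [union_eq] at hx
  have hx' : img x = Kset m ∪ {0} := by rw [hx]; simp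
  refine ⟨⟨Quotient.mk imgSetoid x, ?_⟩, ?_⟩
  · show (boundedFaces (img x)).encard = _
    rw [hx']
    refine faces_count m (S := Ioo 0 1) (fun r hr => hr.2) ?_ ?_ ⟨1 / 2, ?_⟩ ?_
    · exact isOpen_Ioo.preimage continuous_norm
    · exact isPreconnected_norm isPreconnected_Ioo (fun r hr => hr.1.le)
    · show ‖(1 / 2 : ℂ)‖ ∈ Ioo (0 : ℝ) 1
      norm_num
    · intro z
      simp only [mem_union, mem_singleton_iff, mem_Ioo, norm_pos_iff]
      constructor
      · rintro (h | h)
        · exact Or.inl h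
        · right; rw [h]; simp
      · rintro (h | ⟨h1, h2⟩)
        · exact Or.inl h
        · right
          by_contra hne
          exact h2 ⟨hne, h1⟩
  · show ¬ IsPreconnected (img x)
    rw [hx']
    exact Kset_zero_not m

end R754.PG
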