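import Mathlib

/-!
# Spaces of degenerate embedded planar graphs and unordered configuration spaces

Definitions for the problem `MP_c05aef_gt`.
-/

open Set Topology

noncomputable section

namespace R754.PG

/-- A finite graph with vertices `Fin p` and edges `Fin q`; loops and multiple edges are allowed.
The orientation of the edges (from `src e` to `tgt e`) is auxiliary: it is used for the
parametrisation of the edge by `[0, 1]`. -/
structure MGraph where
  /-- number of vertices -/
  p : ℕ
  /-- number of edges -/
  q : ℕ
  /-- the endpoint of the edge at parameter `0` -/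
  src : Fin q → Fin p
  /-- the endpoint of the edge at parameter `1` -/
  tgt : Fin q → Fin p

/-- The disjoint union of the vertices and of a copy of `[0, 1]` for every edge. -/
abbrev Cells (G : MGraph) : Type := Fin G.p ⊕ (Fin G.q × unitInterval)

/-- The two ends of every edge are glued to its endpoints. -/
inductive Glue (G : MGraph) : Cells G → Cells G → Prop
  | src (e : Fin G.q) : Glue G (Sum.inr (e, 0)) (Sum.inl (G.src e))
  | tgt (e : Fin G.q) : Glue G (Sum.inr (e, 1)) (Sum.inl (G.tgt e))

/-- The graph as a one-dimensional CW complex, with the quotient topology. -/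
def CW (G : MGraph) : Type := Quot (Glue G)

instance (G : MGraph) : TopologicalSpace (CW G) :=
  inferInstanceAs (TopologicalSpace (Quot (Glue G)))

/-- The point of the CW complex given by a vertex. -/
def vtx (G : MGraph) (v : Fin G.p) : CW G := Quot.mk _ (Sum.inl v)

/-- The point with parameter `t` of the edge `e`. -/
def pt (G : MGraph) (e : Fin G.q) (t : unitInterval) : CW G := Quot.mk _ (Sum.inr (e, t))

/-- The map `φ` is constant on the edge `e`. -/
def IsConst (G : MGraph) (φ : CW G → ℂ) (e : Fin G.q) : Prop :=
  ∀ t, φ (pt G e t) = φ (pt G e 0)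

/-- The equivalence relation on the vertices generated by the endpoints of the edges in `S`. -/
def Rel (G : MGraph) (S : Set (Fin G.q)) : Fin G.p → Fin G.p → Prop :=
  Relation.EqvGen (fun v w => ∃ e ∈ S, v = G.src e ∧ w = G.tgt e)

/-- Degenerate graph embeddings `φ : G → ℝ²` (the plane is `ℂ`). -/
structure IsDegEmb (G : MGraph) (φ : CW G → ℂ) : Prop where
  /-- the map is constant or injective (hence, by compactness, an embedding) on each closed edge -/
  edge : ∀ e, IsConst G φ e ∨ Set.InjOn φ (Set.range (pt G e))
  /-- two vertices have the same image iff they are equivalent through constant edges -/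
  vert : ∀ v w, φ (vtx G v) = φ (vtx G w) ↔ Rel G {e | IsConst G φ e} v w
  /-- the interior of a non-constant edge does not meet the images of the vertices -/
  vert_edge : ∀ e, ¬ IsConst G φ e → ∀ t : unitInterval, t ≠ 0 → t ≠ 1 →
    ∀ v, φ (pt G e t) ≠ φ (vtx G v)
  /-- the interiors of two different non-constant edges are disjoint -/
  edge_edge : ∀ e f, e ≠ f → ¬ IsConst G φ e → ¬ IsConst G φ f → ∀ s t : unitInterval,
    s ≠ 0 → s ≠ 1 → t ≠ 0 → t ≠ 1 → φ (pt G e s) ≠ φ (pt G f t)
  /-- no cycle has all its edges constant: every constant edge is a bridge of the graph of the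
  constant edges -/
  forest : ∀ e, IsConst G φ e → ¬ Rel G ({f | IsConst G φ f} \ {e}) (G.src e) (G.tgt e)

/-- The space of the degenerate embeddings of `G`, a subspace of the space of continuous maps with
the compact-open topology. -/
abbrev DegEmb (G : MGraph) : Type := {φ : C(CW G, ℂ) // IsDegEmb G φ}

/-- The disjoint union of the spaces `DegEmb G` over all finite graphs `G`. -/
abbrev Tot : Type := Σ G : MGraph, DegEmb G

/-- The image in the plane. -/
def img (x : Tot) : Set ℂ := Set.range x.2.1

/-- Two degenerate embeddings are identified when their images coincide. -/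
def imgSetoid : Setoid Tot where
  r x y := img x = img y
  iseqv := ⟨fun _ => rfl, fun h => h.symm, fun h h' => h.trans h'⟩

/-- The space `𝒩(ℝ²)`, with the quotient topology. -/
def NN : Type := Quotient imgSetoid

instance : TopologicalSpace NN := inferInstanceAs (TopologicalSpace (Quotient imgSetoid))

/-- The image of a class. -/
def NN.img (x : NN) : Set ℂ := Quotient.lift PG.img (fun _ _ h => h) x

/-- The bounded faces of `K`: the bounded connected components of the complement. -/
def boundedFaces (K : Set ℂ) : Set (Set ℂ) :=
  {C | (∃ x ∈ Kᶜ, C = connectedComponentIn Kᶜ x) ∧ Bornology.IsBounded C}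

/-- The subspace `𝒩_n(ℝ²)` of the classes with exactly `n` bounded faces. -/
abbrev Nn (n : ℕ) : Type := {x : NN // (boundedFaces x.img).encard = n}

/-- The ordered configuration space of `n` distinct points of the plane. -/
abbrev Conf (n : ℕ) : Type := {x : Fin n → ℂ // Function.Injective x}

/-- Two ordered configurations which differ by a permutation. -/
def confSetoid (n : ℕ) : Setoid (Conf n) where
  r x y := ∃ σ : Equiv.Perm (Fin n), y.1 = x.1 ∘ σ
  iseqv := by
    refine ⟨fun x => ⟨1, by ext; simp⟩, ?_, ?_⟩
    · rintro x y ⟨σ, h⟩
      exact ⟨σ⁻¹, by rw [h]; ext; simp⟩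
    · rintro x y z ⟨σ, h⟩ ⟨τ, h'⟩
      exact ⟨σ * τ, by rw [h', h]; ext; simp⟩

/-- The unordered configuration space. -/
def UConf (n : ℕ) : Type := Quotient (confSetoid n)

instance (n : ℕ) : TopologicalSpace (UConf n) :=
  inferInstanceAs (TopologicalSpace (Quotient (confSetoid n)))

end R754.PG
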