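import Pool.Agent.R754.PG.Defs

/-!
# Counting bounded faces; polar coordinates
-/

open Set Topology

noncomputable section

namespace R754.PG

/-- if the complement of `K` is the disjoint union of the open connected bounded sets `U i` and of
an unbounded open connected set `W`, then the bounded faces are the `U i` -/
theorem encard_boundedFaces {K : Set ℂ} {n : ℕ} {U : Fin n → Set ℂ} {W : Set ℂ}
    (hK : Kᶜ = (⋃ i, U i) ∪ W) (hU : ∀ i, IsOpen (U i)) (hW : IsOpen W)
    (cU : ∀ i, IsPreconnected (U i)) (cW : IsPreconnected W) (nU : ∀ i, (U i).Nonempty)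
    (bU : ∀ i, Bornology.IsBounded (U i)) (bW : ¬ Bornology.IsBounded W)
    (dU : ∀ i j, i ≠ j → Disjoint (U i) (U j)) (dW : ∀ i, Disjoint (U i) W) :
    (boundedFaces K).encard = n := by
  have sub : ∀ {A : Set ℂ}, IsOpen A → ∀ {B : Set ℂ}, IsOpen B → Disjoint A B → Kᶜ ⊆ A ∪ B →
      IsPreconnected A → A ⊆ Kᶜ → ∀ x ∈ A, connectedComponentIn Kᶜ x = A := by
    intro A hA B hB hAB hs cA hAK x hx
    apply Subset.antisymm
    · refine isPreconnected_connectedComponentIn.subset_left_of_subset_union hA hB hAB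
        ((connectedComponentIn_subset _ _).trans hs) ⟨x, mem_connectedComponentIn (hAK hx), hx⟩
    · exact cA.subset_connectedComponentIn hx hAK
  have hUK : ∀ i, U i ⊆ Kᶜ := fun i => by
    rw [hK]; exact (subset_iUnion U i).trans subset_union_left
  have hWK : W ⊆ Kᶜ := by rw [hK]; exact subset_union_right
  have compU : ∀ i, ∀ x ∈ U i, connectedComponentIn Kᶜ x = U i := by
    intro i
    refine sub (hU i) (B := (⋃ j ∈ {j | j ≠ i}, U j) ∪ W)
      ((isOpen_biUnion fun j _ => hU j).union hW) ?_ ?_ (cU i) (hUK i)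
    · rw [disjoint_union_right]
      refine ⟨?_, dW i⟩
      rw [disjoint_iUnion₂_right]
      intro j hj
      exact dU i j (Ne.symm hj)
    · rw [hK]
      rintro z (hz | hz)
      · obtain ⟨j, hj⟩ := mem_iUnion.1 hz
        by_cases hji : j = i
        · subst hji; exact Or.inl hj
        · exact Or.inr (Or.inl (mem_biUnion (show j ∈ {j | j ≠ i} from hji) hj))
      · exact Or.inr (Or.inr hz)
  have compW : ∀ x ∈ W, connectedComponentIn Kᶜ x = W := by
    refine sub hW (B := ⋃ j, U j) (isOpen_iUnion hU) ?_ ?_ cW hWK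
    · rw [disjoint_iUnion_right]
      exact fun i => (dW i).symm
    · rw [hK, union_comm]
  have hfaces : boundedFaces K = range U := by
    ext C
    constructor
    · rintro ⟨⟨x, hx, rfl⟩, hb⟩
      rw [hK] at hx
      rcases hx with hx | hx
      · obtain ⟨i, hi⟩ := mem_iUnion.1 hx
        exact ⟨i, (compU i x hi).symm⟩
      · rw [compW x hx] at hb
        exact absurd hb bW
    · rintro ⟨i, rfl⟩
      obtain ⟨x, hx⟩ := nU i
      exact ⟨⟨x, hUK i hx, (compU i x hx).symm⟩, bU i⟩
  have hinj : Function.Injective U := by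
    intro i j hij
    by_contra hne
    have h1 := dU i j hne
    rw [hij, disjoint_self] at h1
    obtain ⟨x, hx⟩ := nU j
    rw [h1] at hx
    exact hx
  rw [hfaces, ← image_univ, hinj.encard_image, encard_univ]
  simp

/-- polar coordinates: the points with norm in `S` and argument in `T` form a connected set -/
theorem isPreconnected_polar {S T : Set ℝ} (hS : IsPreconnected S) (hT : IsPreconnected T) :
    IsPreconnected {z : ℂ | ∃ r ∈ S, ∃ θ ∈ T, z = r * Complex.exp (θ * Complex.I)} := by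
  have h1 : IsPreconnected (S ×ˢ T) := hS.prod hT
  have h2 := h1.image (fun q : ℝ × ℝ => (q.1 : ℂ) * Complex.exp (q.2 * Complex.I))
    (by fun_prop)
  convert h2 using 1
  ext z
  constructor
  · rintro ⟨r, hr, θ, hθ, rfl⟩
    exact ⟨(r, θ), ⟨hr, hθ⟩, rfl⟩
  · rintro ⟨⟨r, θ⟩, ⟨hr, hθ⟩, rfl⟩
    exact ⟨r, hr, θ, hθ, rfl⟩

/-- the points with norm in `S ⊆ (0, ∞)` -/
theorem isPreconnected_norm {S : Set ℝ} (hS : IsPreconnected S) (h0 : ∀ r ∈ S, 0 ≤ r) :
    IsPreconnected {z : ℂ | ‖z‖ ∈ S} := by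
  convert isPreconnected_polar hS isPreconnected_univ using 1
  ext z
  constructor
  · intro hz
    exact ⟨‖z‖, hz, Complex.arg z, mem_univ _, (Complex.norm_mul_exp_arg_mul_I z).symm⟩
  · rintro ⟨r, hr, θ, -, rfl⟩
    have : ‖(r : ℂ) * Complex.exp (θ * Complex.I)‖ = r := by
      rw [norm_mul, Complex.norm_exp_ofReal_mul_I, mul_one, Complex.norm_real,
        Real.norm_of_nonneg (h0 r hr)]
    show ‖(r : ℂ) * Complex.exp (θ * Complex.I)‖ ∈ S
    rw [this]; exact hr

/-- the points with norm in `S ⊆ (0, ∞)` outside of the negative real axis -/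
theorem isPreconnected_slit {S : Set ℝ} (hS : IsPreconnected S) (h0 : ∀ r ∈ S, 0 < r) :
    IsPreconnected ({z : ℂ | ‖z‖ ∈ S} ∩ Complex.slitPlane) := by
  convert isPreconnected_polar hS (isPreconnected_Ioo (a := -Real.pi) (b := Real.pi)) using 1
  ext z
  constructor
  · rintro ⟨hz, hs⟩
    refine ⟨‖z‖, hz, Complex.arg z, ⟨Complex.neg_pi_lt_arg z, ?_⟩,
      (Complex.norm_mul_exp_arg_mul_I z).symm⟩
    exact lt_of_le_of_ne (Complex.arg_le_pi z) (Complex.mem_slitPlane_iff_arg.1 hs).1
  · rintro ⟨r, hr, θ, hθ, rfl⟩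
    have hr0 := h0 r hr
    have : ‖(r : ℂ) * Complex.exp (θ * Complex.I)‖ = r := by
      rw [norm_mul, Complex.norm_exp_ofReal_mul_I, mul_one, Complex.norm_real,
        Real.norm_of_nonneg hr0.le]
    refine ⟨by show ‖(r : ℂ) * Complex.exp (θ * Complex.I)‖ ∈ S; rw [this]; exact hr, ?_⟩
    rw [Complex.mem_slitPlane_iff_arg]
    constructor
    · rw [Complex.exp_mul_I, Complex.arg_mul_cos_add_sin_mul_I hr0 ⟨hθ.1, hθ.2.le⟩]
      exact hθ.2.ne
    · intro h
      rw [h, norm_zero] at this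
      exact hr0.ne this

end R754.PG
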