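import Pool.Agent.R754.PG.Defs

/-!
# Construction of embedded graphs
-/

open Set Topology

noncomputable section

namespace R754.PG

/-- an embedded graph from its vertices and arcs -/
theorem exists_embedding {V E : Type} [Fintype V] [Fintype E] (s t : E → V) (f : V → ℂ)
    (γ : E → unitInterval → ℂ) (hc : ∀ e, Continuous (γ e)) (h0 : ∀ e, γ e 0 = f (s e))
    (h1 : ∀ e, γ e 1 = f (t e)) (hf : Function.Injective f)
    (hγ : ∀ e, Function.Injective (γ e))
    (hve : ∀ e, ∀ u : unitInterval, u ≠ 0 → u ≠ 1 → ∀ v, γ e u ≠ f v)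
    (hee : ∀ e e', e ≠ e' → ∀ u u' : unitInterval, u ≠ 0 → u ≠ 1 → u' ≠ 0 → u' ≠ 1 →
      γ e u ≠ γ e' u') :
    ∃ x : Tot, img x = range f ∪ ⋃ e, range (γ e) := by
  classical
  set eV := Fintype.equivFin V
  set eE := Fintype.equivFin E
  let G : MGraph := ⟨Fintype.card V, Fintype.card E, fun e => eV (s (eE.symm e)),
    fun e => eV (t (eE.symm e))⟩
  let φ₀ : Cells G → ℂ := Sum.elim (fun v => f (eV.symm v)) (fun q => γ (eE.symm q.1) q.2)
  have hglue : ∀ a b, Glue G a b → φ₀ a = φ₀ b := by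
    rintro _ _ (e | e)
    · simp [φ₀, G, h0]
    · simp [φ₀, G, h1]
  let φ : CW G → ℂ := Quot.lift φ₀ hglue
  have hφv : ∀ v, φ (vtx G v) = f (eV.symm v) := fun v => rfl
  have hφe : ∀ e u, φ (pt G e u) = γ (eE.symm e) u := fun e u => rfl
  have hcont : Continuous φ := by
    refine continuous_quot_lift hglue ?_
    refine continuous_sumElim.2 ⟨continuous_of_discreteTopology, ?_⟩
    refine continuous_prod_of_discrete_left.2 ?_
    intro e
    exact hc (eE.symm e)
  have hnc : ∀ e, ¬ IsConst G φ e := by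
    intro e he
    have := he 1
    rw [hφe, hφe] at this
    exact one_ne_zero (hγ _ this)
  have hem : {e | IsConst G φ e} = ∅ := by
    ext e; simpa using hnc e
  have hrel : ∀ v w, Rel G ∅ v w ↔ v = w := by
    intro v w
    constructor
    · intro h
      induction h with
      | rel x y h => obtain ⟨e, he, -⟩ := h; exact absurd he (notMem_empty e)
      | refl x => rfl
      | symm x y _ ih => exact ih.symm
      | trans x y z _ _ ih1 ih2 => exact ih1.trans ih2
    · rintro rfl
      exact Relation.EqvGen.refl _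
  have hdeg : IsDegEmb G φ := by
    refine ⟨fun e => Or.inr ?_, ?_, ?_, ?_, fun e he => absurd he (hnc e)⟩
    · rintro _ ⟨u, rfl⟩ _ ⟨u', rfl⟩ h
      rw [hφe, hφe] at h
      rw [hγ _ h]
    · intro v w
      rw [hem, hrel, hφv, hφv]
      constructor
      · intro h
        exact eV.symm.injective (hf h)
      · rintro rfl; rfl
    · intro e _ u hu0 hu1 v
      rw [hφv, hφe]
      exact hve _ u hu0 hu1 _
    · intro e e' hne _ _ u u' a b c d
      rw [hφe, hφe]
      exact hee _ _ (fun h => hne (eE.symm.injective h)) u u' a b c d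
  refine ⟨⟨G, ⟨⟨φ, hcont⟩, hdeg⟩⟩, ?_⟩
  ext z
  constructor
  · rintro ⟨x, rfl⟩
    induction x using Quot.inductionOn with
    | h c =>
      rcases c with v | ⟨e, u⟩
      · exact Or.inl ⟨eV.symm v, rfl⟩
      · exact Or.inr (mem_iUnion.2 ⟨eE.symm e, u, rfl⟩)
  · rintro (⟨v, rfl⟩ | hz)
    · refine ⟨vtx G (eV v), ?_⟩
      show φ (vtx G (eV v)) = f v
      rw [hφv, Equiv.symm_apply_apply]
    · obtain ⟨e, u, rfl⟩ := mem_iUnion.1 hz
      refine ⟨pt G (eE e) u, ?_⟩
      show φ (pt G (eE e) u) = γ e u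
      rw [hφe, Equiv.symm_apply_apply]

end R754.PG
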