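import Pool.Agent.R754.PG.Conn
import Pool.Agent.R754.PG.Faces
import Pool.Agent.R754.PG.Make

/-!
# Two graphs with `m + 1` bounded faces
-/

open Set Topology

noncomputable section

namespace R754.PG

/-- the circles of radius `1, …, m + 1` and the segment from `-(m + 1)` to `-1` -/
def Kset (m : ℕ) : Set ℂ :=
  {z | (∃ k : ℕ, 1 ≤ k ∧ k ≤ m + 1 ∧ ‖z‖ = k) ∨ (z.im = 0 ∧ -((m : ℝ) + 1) ≤ z.re ∧ z.re ≤ -1)}

/-- sign -/
def sg (b : Bool) : ℝ := cond b 1 (-1)

theorem sg_sq (b : Bool) : sg b ^ 2 = 1 := by cases b <;> simp [sg]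

theorem norm_arc {r : ℝ} (hr : 0 ≤ r) (b : Bool) (a : ℝ) :
    ‖(⟨r * Real.cos a, sg b * (r * Real.sin a)⟩ : ℂ)‖ = r := by
  rw [Complex.norm_def, Complex.normSq_mk]
  have : r * Real.cos a * (r * Real.cos a) + sg b * (r * Real.sin a) * (sg b * (r * Real.sin a)) =
      r ^ 2 := by
    have h1 := Real.cos_sq_add_sin_sq a
    have h2 := sg_sq b
    linear_combination (r ^ 2 * Real.sin a ^ 2) * h2 + r ^ 2 * h1
  rw [this, Real.sqrt_sq hr]

section construction

variable (m : ℕ) (P : Type)

/-- positions of the vertices -/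
def fv : (Fin (m + 1) × Bool) ⊕ P → ℝ :=
  Sum.elim (fun q => sg q.2 * ((q.1 : ℕ) + 1)) (fun _ => 0)

/-- the arcs -/
def arc : (Fin (m + 1) × Bool) ⊕ Fin m → unitInterval → ℂ
  | Sum.inl q, u => ⟨((q.1 : ℕ) + 1) * Real.cos (Real.pi * u),
      sg q.2 * (((q.1 : ℕ) + 1) * Real.sin (Real.pi * u))⟩
  | Sum.inr j, u => ⟨-((j : ℕ) + 1 + (u : ℝ)), 0⟩

/-- first endpoint -/
def st : (Fin (m + 1) × Bool) ⊕ Fin m → (Fin (m + 1) × Bool) ⊕ P
  | Sum.inl q => Sum.inl (q.1, true)
  | Sum.inr j => Sum.inl (j.castSucc, false)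

/-- second endpoint -/
def en : (Fin (m + 1) × Bool) ⊕ Fin m → (Fin (m + 1) × Bool) ⊕ P
  | Sum.inl q => Sum.inl (q.1, false)
  | Sum.inr j => Sum.inl (j.succ, false)

theorem sin_pos_of {u : unitInterval} (h0 : u ≠ 0) (h1 : u ≠ 1) :
    0 < Real.sin (Real.pi * u) := by
  have hu0 : (0 : ℝ) < u := lt_of_le_of_ne u.2.1 fun h => h0 (Subtype.ext h.symm)
  have hu1 : (u : ℝ) < 1 := lt_of_le_of_ne u.2.2 fun h => h1 (Subtype.ext h)
  apply Real.sin_pos_of_pos_of_lt_pi
  · exact mul_pos Real.pi_pos hu0
  · nlinarith [Real.pi_pos]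

theorem lt_of_ne {u : unitInterval} (h0 : u ≠ 0) (h1 : u ≠ 1) : 0 < (u : ℝ) ∧ (u : ℝ) < 1 :=
  ⟨lt_of_le_of_ne u.2.1 fun h => h0 (Subtype.ext h.symm),
    lt_of_le_of_ne u.2.2 fun h => h1 (Subtype.ext h)⟩

theorem fv_injective [Subsingleton P] : Function.Injective (fv m P) := by
  rintro (⟨k, b⟩ | p) (⟨k', b'⟩ | p') h
  · have hk : (0 : ℝ) ≤ (k : ℕ) := Nat.cast_nonneg _
    have hk' : (0 : ℝ) ≤ (k' : ℕ) := Nat.cast_nonneg _
    simp only [fv, Sum.elim_inl] at h
    cases b <;> cases b' <;> simp only [sg, cond_true, cond_false] at h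
    · have : (k : ℕ) = k' := by
        have : ((k : ℕ) : ℝ) = (k' : ℕ) := by linarith
        exact_mod_cast this
      rw [Fin.ext this]
    · exfalso; linarith
    · exfalso; linarith
    · have : (k : ℕ) = k' := by
        have : ((k : ℕ) : ℝ) = (k' : ℕ) := by linarith
        exact_mod_cast this
      rw [Fin.ext this]
  · exfalso
    have hk : (0 : ℝ) ≤ (k : ℕ) := Nat.cast_nonneg _
    simp only [fv, Sum.elim_inl, Sum.elim_inr] at h
    cases b <;> simp only [sg, cond_true, cond_false] at h <;> linarith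
  · exfalso
    have hk : (0 : ℝ) ≤ (k' : ℕ) := Nat.cast_nonneg _
    simp only [fv, Sum.elim_inl, Sum.elim_inr] at h
    cases b' <;> simp only [sg, cond_true, cond_false] at h <;> linarith
  · rw [Subsingleton.elim p p']

theorem exists_graph [Fintype P] [Subsingleton P] :
    ∃ x : Tot, img x = range (fun v => ((fv m P v : ℝ) : ℂ)) ∪ ⋃ e, range (arc m e) := by
  refine exists_embedding (st m P) (en m P) _ (arc m) ?_ ?_ ?_ ?_ ?_ ?_ ?_
  · rintro (⟨k, b⟩ | j)
    · have : arc m (Sum.inl (k, b)) = fun u : unitInterval =>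
          ((((k : ℕ) + 1) * Real.cos (Real.pi * u) : ℝ) : ℂ) +
          ((sg b * (((k : ℕ) + 1) * Real.sin (Real.pi * u)) : ℝ) : ℂ) * Complex.I := by
        funext u
        exact Complex.mk_eq_add_mul_I _ _
      rw [this]
      fun_prop
    · have : arc m (Sum.inr j) = fun u : unitInterval =>
          ((-((j : ℕ) + 1 + (u : ℝ)) : ℝ) : ℂ) := by
        funext u
        rfl
      rw [this]
      fun_prop
  · rintro (⟨k, b⟩ | j)
    · apply Complex.ext <;> simp [arc, st, fv, sg]
    · apply Complex.ext <;> simp [arc, st, fv, sg]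
  · rintro (⟨k, b⟩ | j)
    · apply Complex.ext <;> simp [arc, en, fv, sg]
    · apply Complex.ext <;> simp [arc, en, fv, sg]
  · intro v w h
    exact fv_injective m P (Complex.ofReal_injective h)
  · rintro (⟨k, b⟩ | j) u u' h
    · have hk : (0 : ℝ) < (k : ℕ) + 1 := by positivity
      have h1 := congrArg Complex.re h
      simp only [arc] at h1
      have h2 : Real.cos (Real.pi * u) = Real.cos (Real.pi * u') := mul_left_cancel₀ hk.ne' h1
      have h3 : Real.pi * (u : ℝ) = Real.pi * u' := Real.injOn_cos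
        ⟨mul_nonneg Real.pi_pos.le u.2.1, by nlinarith [Real.pi_pos, u.2.2]⟩
        ⟨mul_nonneg Real.pi_pos.le u'.2.1, by nlinarith [Real.pi_pos, u'.2.2]⟩ h2
      exact Subtype.ext (mul_left_cancel₀ Real.pi_pos.ne' h3)
    · have h1 := congrArg Complex.re h
      simp only [arc] at h1
      exact Subtype.ext (by linarith)
  · rintro (⟨k, b⟩ | j) u h0 h1 v h
    · have h2 := congrArg Complex.im h
      simp only [arc, Complex.ofReal_im] at h2
      have h3 := sin_pos_of h0 h1
      have hk : (0 : ℝ) < (k : ℕ) + 1 := by positivity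
      have h4 := mul_pos hk h3
      cases b <;> simp only [sg, cond_true, cond_false] at h2 <;> linarith
    · obtain ⟨h3, h4⟩ := lt_of_ne h0 h1
      have h2 := congrArg Complex.re h
      simp only [arc, Complex.ofReal_re] at h2
      have hj : (0 : ℝ) ≤ (j : ℕ) := Nat.cast_nonneg _
      rcases v with ⟨k, b⟩ | p
      · have hk : (0 : ℝ) ≤ (k : ℕ) := Nat.cast_nonneg _
        simp only [fv, Sum.elim_inl] at h2
        cases b <;> simp only [sg, cond_true, cond_false] at h2
        · have h5 : ((j : ℕ) : ℝ) < (k : ℕ) := by linarith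
          have h6 : ((k : ℕ) : ℝ) < (j : ℕ) + 1 := by linarith
          have h5' : (j : ℕ) < (k : ℕ) := by exact_mod_cast h5
          have h6' : (k : ℕ) < (j : ℕ) + 1 := by exact_mod_cast h6
          omega
        · linarith
      · simp only [fv, Sum.elim_inr] at h2
        linarith
  · rintro (⟨k, b⟩ | j) (⟨k', b'⟩ | j') hne u u' h0 h1 h0' h1' h
    · have hk : (0 : ℝ) < (k : ℕ) + 1 := by positivity
      have hk' : (0 : ℝ) < (k' : ℕ) + 1 := by positivity
      have hn := congrArg norm h
      simp only [arc] at hn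
      rw [norm_arc hk.le, norm_arc hk'.le] at hn
      have hkk : (k : ℕ) = k' := by
        have : ((k : ℕ) : ℝ) = (k' : ℕ) := by linarith
        exact_mod_cast this
      have hkk' : k = k' := Fin.ext hkk
      subst hkk'
      have hbb : b ≠ b' := fun h => hne (by rw [h])
      have h2 := congrArg Complex.im h
      simp only [arc] at h2
      have h3 := mul_pos hk (sin_pos_of h0 h1)
      have h4 := mul_pos hk (sin_pos_of h0' h1')
      cases b <;> cases b' <;> simp only [sg, cond_true, cond_false] at h2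
      · exact hbb rfl
      · linarith
      · linarith
      · exact hbb rfl
    · have h2 := congrArg Complex.im h
      simp only [arc] at h2
      have hk : (0 : ℝ) < (k : ℕ) + 1 := by positivity
      have h3 := mul_pos hk (sin_pos_of h0 h1)
      cases b <;> simp only [sg, cond_true, cond_false] at h2 <;> linarith
    · have h2 := congrArg Complex.im h
      simp only [arc] at h2
      have hk : (0 : ℝ) < (k' : ℕ) + 1 := by positivity
      have h3 := mul_pos hk (sin_pos_of h0' h1')
      cases b' <;> simp only [sg, cond_true, cond_false] at h2 <;> linarith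
    · have h2 := congrArg Complex.re h
      simp only [arc] at h2
      obtain ⟨a1, a2⟩ := lt_of_ne h0 h1
      obtain ⟨a3, a4⟩ := lt_of_ne h0' h1'
      have h5 : ((j : ℕ) : ℝ) < (j' : ℕ) + 1 := by linarith
      have h6 : ((j' : ℕ) : ℝ) < (j : ℕ) + 1 := by linarith
      have h5' : (j : ℕ) < (j' : ℕ) + 1 := by exact_mod_cast h5
      have h6' : (j' : ℕ) < (j : ℕ) + 1 := by exact_mod_cast h6
      exact hne (by rw [Fin.ext (show (j : ℕ) = j' by omega)])

theorem union_eq : (range (fun v => ((fv m P v : ℝ) : ℂ)) ∪ ⋃ e, range (arc m e)) =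
    Kset m ∪ range (fun _ : P => (0 : ℂ)) := by
  ext z
  constructor
  · rintro (⟨v, rfl⟩ | hz)
    · rcases v with ⟨k, b⟩ | p
      · refine Or.inl (Or.inl ⟨(k : ℕ) + 1, by omega, by have := k.2; omega, ?_⟩)
        have hk : (0 : ℝ) ≤ (k : ℕ) := Nat.cast_nonneg _
        have hs : |sg b| = 1 := by cases b <;> simp [sg]
        simp only [fv, Sum.elim_inl, Complex.norm_real, Real.norm_eq_abs, abs_mul, hs, one_mul]
        rw [abs_of_nonneg (by linarith)]
        push_cast; rfl
      · exact Or.inr ⟨p, by simp [fv]⟩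
    · obtain ⟨e, u, rfl⟩ := mem_iUnion.1 hz
      rcases e with ⟨k, b⟩ | j
      · refine Or.inl (Or.inl ⟨(k : ℕ) + 1, by omega, by have := k.2; omega, ?_⟩)
        simp only [arc]
        rw [norm_arc (by positivity)]
        push_cast; rfl
      · refine Or.inl (Or.inr ⟨rfl, ?_, ?_⟩)
        · have h1 : ((j : ℕ) : ℝ) + 1 ≤ m := by
            have := j.2
            exact_mod_cast this
          have h2 : (u : ℝ) ≤ 1 := u.2.2
          simp only [arc]; linarith
        · have h1 : (0 : ℝ) ≤ (j : ℕ) := Nat.cast_nonneg _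
          have h2 : (0 : ℝ) ≤ u := u.2.1
          simp only [arc]; linarith
  · rintro ((⟨k, hk1, hk2, hk⟩ | ⟨him, hre1, hre2⟩) | ⟨p, rfl⟩)
    · right
      have hkk : (((k - 1 : ℕ) : ℝ) + 1) = ‖z‖ := by
        rw [hk]
        have : (k - 1) + 1 = k := by omega
        exact_mod_cast this
      have hpi := Real.pi_pos
      by_cases hθ : 0 ≤ z.arg
      · refine mem_iUnion.2 ⟨Sum.inl (⟨k - 1, by omega⟩, true),
          ⟨z.arg / Real.pi, by positivity, (div_le_one hpi).2 z.arg_le_pi⟩, ?_⟩
        have hu : Real.pi * (z.arg / Real.pi) = z.arg := by field_simp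
        apply Complex.ext
        · simp only [arc, hu, hkk]
          exact Complex.norm_mul_cos_arg z
        · simp only [arc, hu, hkk, sg, cond_true, one_mul]
          exact Complex.norm_mul_sin_arg z
      · push Not at hθ
        refine mem_iUnion.2 ⟨Sum.inl (⟨k - 1, by omega⟩, false),
          ⟨-z.arg / Real.pi, div_nonneg (by linarith) hpi.le,
            (div_le_one hpi).2 (by linarith [z.neg_pi_lt_arg])⟩, ?_⟩
        have hu : Real.pi * (-z.arg / Real.pi) = -z.arg := by field_simp
        apply Complex.ext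
        · simp only [arc, hu, hkk, Real.cos_neg]
          exact Complex.norm_mul_cos_arg z
        · simp only [arc, hu, hkk, sg, cond_false, Real.sin_neg]
          rw [← Complex.norm_mul_sin_arg z]; ring
    · by_cases hlast : z.re = -((m : ℝ) + 1)
      · left
        refine ⟨Sum.inl (Fin.last m, false), ?_⟩
        apply Complex.ext
        · simp [fv, sg, hlast]
        · simp [him]
      · right
        have hlt : -z.re < (m : ℝ) + 1 := by
          have := lt_of_le_of_ne hre1 (Ne.symm hlast)
          linarith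
        have hx : (1 : ℝ) ≤ -z.re := by linarith
        set n := ⌊-z.re⌋₊ with hn
        have hn1 : 1 ≤ n := Nat.le_floor (by exact_mod_cast hx)
        have hle : (n : ℝ) ≤ -z.re := Nat.floor_le (by linarith)
        have hlt' : -z.re < n + 1 := Nat.lt_floor_add_one _
        have hnm : n < m + 1 := by
          have : (n : ℝ) < (m + 1 : ℕ) := by push_cast; linarith
          exact_mod_cast this
        refine mem_iUnion.2 ⟨Sum.inr ⟨n - 1, by omega⟩,
          ⟨-z.re - n, by linarith, by linarith⟩, ?_⟩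
        have hcast : (((n - 1 : ℕ) : ℝ) + 1) = n := by
          have : (n - 1) + 1 = n := by omega
          exact_mod_cast this
        apply Complex.ext
        · simp only [arc, hcast]; ring
        · simp only [arc, him]
    · left
      exact ⟨Sum.inr p, by simp [fv]⟩

end construction

end R754.PG
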